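import Pool.Agent.Run7.h756.PH.Main

/-!
# Strings of consecutive prime pairs of difference `h` in one residue class

The first members of the prime pairs `(p, p + h)` of difference `h` (`h = 2`: the twin primes). For every modulus
`q`, every `r` and every `λ > 0` there is a `c > 0` such that for all large `x` and ALL `H` between a power of
`log x` and `x`: for at least `c H` of the multiples `h ≤ H` of `q`, SIMULTANEOUSLY for all classes `a` coprime to
`q`, at least `c x / (log x) ^ 2` of the first members `p ≤ x`, and at least a proportion `c` of all of them, are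
such that `p` and the `r` next first members are all congruent to `a` modulo `q` and within `λ (log x) ^ 2` of each
other. For `q = 4` and `r = 1`: the proportions `δ_h(x; 4; 1|1)` and `δ_h(x; 4; 3|3)` of the page, with the
difference `2` replaced by `h`, are both at least `c` for a positive proportion of the `h ≤ H`.

The number of configurations of `r + 1` prime pairs of difference `h` in a window of length `L = λ (log x) ^ 2` is a
product of counting functions of the same configurations of primes; its average over `h` is bounded from below by the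
Cauchy-Schwarz inequality and Chebyshev's lower bound in a residue class (for all classes together: by the
Cauchy-Schwarz inequality for vectors of primes with the same differences), and the configurations with a further
prime pair in the window are, for a small `λ`, fewer, by the upper bound sieve for tuples of primes and the moments
of the singular series.
-/

set_option autoImplicit false

open Finset

namespace Pool.Agent.Results.MP_74f661_nt.EqualClassStrings

/-- `(p, p + h)` is a prime pair of difference `h` (for `h = 2`: a twin prime pair). -/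
def PrimePair (h p : ℕ) : Prop := p.Prime ∧ (p + h).Prime

/-- `n 0 < n 1 < … < n r` are consecutive elements of `S`. -/
def Consecutive (S : ℕ → Prop) (r : ℕ) (n : ℕ → ℕ) : Prop :=
  (∀ i ≤ r, S (n i)) ∧ ∀ i < r, n i < n (i + 1) ∧ ∀ m, n i < m → m < n (i + 1) → ¬ S m

open Classical in
/-- The number of the first members `p ≤ x` of the prime pairs of difference `h`. -/
noncomputable def pairs (h x : ℕ) : ℕ := ((Icc 1 x).filter (fun p => PrimePair h p)).card

open Classical in
/-- The number of the first members `p ≤ x` of the prime pairs of difference `h` such that `p` and the `r` next first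
members are all congruent to `a` modulo `q` and lie in `[p, p + lam (log x) ^ 2]`. -/
noncomputable def strings (q r a : ℕ) (lam : ℝ) (h x : ℕ) : ℕ :=
  ((Icc 1 x).filter (fun p => ∃ n : ℕ → ℕ, n 0 = p ∧ Consecutive (PrimePair h) r n ∧
    (∀ i ≤ r, n i ≡ a [MOD q]) ∧ (n r : ℝ) ≤ p + lam * Real.log x ^ 2)).card

open Classical in
/-- `π_h(x; 4; a)`: the number of the first members `p ≤ x` congruent to `a` modulo 4 of the prime pairs of
difference `h`. -/
noncomputable def count1 (h a x : ℕ) : ℕ := ((Icc 1 x).filter (fun p => PrimePair h p ∧ p % 4 = a)).card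

open Classical in
/-- `π_h(x; 4; a|b)`: the number of the first members `p ≤ x` congruent to `a` modulo 4 of prime pairs of difference
`h` for which the next first member is congruent to `b` modulo 4. -/
noncomputable def count2 (h a b x : ℕ) : ℕ :=
  ((Icc 1 x).filter (fun p => ∃ n : ℕ → ℕ, n 0 = p ∧ Consecutive (PrimePair h) 1 n ∧ n 0 % 4 = a ∧
    n 1 % 4 = b)).card

/-- `δ_h(x; 4; a|b)`. -/
noncomputable def delta (h a b x : ℕ) : ℝ := (count2 h a b x : ℝ) / count1 h a x

open Classical in
lemma general (q r : ℕ) (hq : 0 < q) (lam : ℝ) (hlam : 0 < lam) :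
    ∃ c > (0 : ℝ), ∃ x₀ : ℕ, ∀ x : ℕ, x₀ ≤ x → ∀ H : ℕ,
      Real.log x ^ ((2 * r + 2) * q.totient + 3) ≤ H → H ≤ x →
        c * H ≤ (((Icc 1 H).filter (fun h => q ∣ h ∧ ∀ a : ℕ, a.Coprime q →
          c * (x / Real.log x ^ 2) ≤ strings q r a lam h x ∧
            c * pairs h x ≤ strings q r a lam h x)).card : ℝ) := by
  obtain ⟨c, hc, x₀, hmain⟩ := Pool.Agent.Run7.h756.PH.main q r hq lam hlam
  refine ⟨c, hc, x₀, fun x hx H hH hHx => ?_⟩
  obtain ⟨L, hL, hcard⟩ := hmain x hx H hH hHx
  refine hcard.trans ?_
  norm_cast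
  apply card_le_card
  intro h hh
  rw [mem_filter] at hh ⊢
  refine ⟨hh.1, hh.2.1, fun a ha => ?_⟩
  have hcl : a % q ∈ Pool.Agent.Run7.h756.PH.Cl q := by
    rw [mem_filter, mem_range]
    refine ⟨Nat.mod_lt _ hq, ?_⟩
    rw [Nat.Coprime, ← Nat.gcd_rec, Nat.gcd_comm]
    exact ha
  obtain ⟨h1, h2⟩ := hh.2.2 (a % q) hcl
  have h3 : Pool.Agent.Run7.h756.PH.NN q r (a % q) x L h ≤ strings q r a lam h x := by
    unfold Pool.Agent.Run7.h756.PH.NN strings
    apply card_le_card
    intro p hp
    rw [mem_filter] at hp ⊢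
    obtain ⟨h4, _, h6, n, h7, h8, h9, h10⟩ := hp
    refine ⟨h4, n, h7, h8, fun i hi => ?_, ?_⟩
    · show n i % q = a % q
      rw [h9 i hi, h6]
    · have h11 : (n r : ℝ) ≤ p + L := by exact_mod_cast h10
      linarith
  have h3' : (Pool.Agent.Run7.h756.PH.NN q r (a % q) x L h : ℝ) ≤ strings q r a lam h x := by
    exact_mod_cast h3
  have h4 : (pairs h x : ℝ) = Pool.Agent.Run7.h756.PH.U 0 h x L := by
    unfold pairs Pool.Agent.Run7.h756.PH.U
    norm_cast
    rw [sum_congr rfl (fun p _ => by rw [powersetCard_zero, card_singleton]), sum_const, smul_eq_mul, mul_one]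
    rfl
  exact ⟨h1.trans h3', by rw [h4]; exact h2.trans h3'⟩

open Classical in
/-- **Main theorem.** -/
theorem result :
    -- strings of `r + 1` consecutive prime pairs of difference `h` in one class modulo `q`, for all classes at once
    (∀ q r : ℕ, 0 < q → ∀ lam : ℝ, 0 < lam → ∃ c > (0 : ℝ), ∃ x₀ : ℕ, ∀ x : ℕ, x₀ ≤ x → ∀ H : ℕ,
      Real.log x ^ ((2 * r + 2) * q.totient + 3) ≤ H → H ≤ x →
        c * H ≤ (((Icc 1 H).filter (fun h => q ∣ h ∧ ∀ a : ℕ, a.Coprime q →
          c * (x / Real.log x ^ 2) ≤ strings q r a lam h x ∧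
            c * pairs h x ≤ strings q r a lam h x)).card : ℝ)) ∧
    -- in particular, the proportions of the page for `a|a`
    (∃ c > (0 : ℝ), ∃ x₀ : ℕ, ∀ x : ℕ, x₀ ≤ x → ∀ H : ℕ, Real.log x ^ 11 ≤ H → H ≤ x →
      c * H ≤ (((Icc 1 H).filter (fun h => 4 ∣ h ∧ ∀ a : ℕ, (a = 1 ∨ a = 3) →
        c * (x / Real.log x ^ 2) ≤ count2 h a a x ∧ 0 < count1 h a x ∧ c ≤ delta h a a x)).card : ℝ)) := by
  refine ⟨general, ?_⟩
  obtain ⟨c, hc, x₀, hg⟩ := general 4 1 (by norm_num) 1 one_pos
  refine ⟨c, hc, max x₀ 2, fun x hx H hH hHx => ?_⟩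
  have hx2 : 2 ≤ x := (le_max_right _ _).trans hx
  have h11 : (2 * 1 + 2) * Nat.totient 4 + 3 = 11 := by
    have : Nat.totient 4 = 2 := by decide
    rw [this]
  refine (hg x ((le_max_left _ _).trans hx) H (by rw [h11]; exact hH) hHx).trans ?_
  norm_cast
  apply card_le_card
  intro h hh
  rw [mem_filter] at hh ⊢
  refine ⟨hh.1, hh.2.1, fun a ha => ?_⟩
  have hcop : a.Coprime 4 := by
    rcases ha with rfl | rfl <;> decide
  have ha4 : a % 4 = a := by
    rcases ha with rfl | rfl <;> rfl
  obtain ⟨h1, h2⟩ := hh.2.2 a hcop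
  have h3 : strings 4 1 a 1 h x ≤ count2 h a a x := by
    unfold strings count2
    apply card_le_card
    intro p hp
    rw [mem_filter] at hp ⊢
    obtain ⟨h4, n, h7, h8, h9, _⟩ := hp
    refine ⟨h4, n, h7, h8, ?_, ?_⟩
    · have := h9 0 (by omega)
      rw [← ha4]
      exact this
    · have := h9 1 (by omega)
      rw [← ha4]
      exact this
  have h3' : (strings 4 1 a 1 h x : ℝ) ≤ count2 h a a x := by exact_mod_cast h3
  have hlog : 0 < Real.log x := Real.log_pos (by exact_mod_cast hx2)
  have hxp : (0 : ℝ) < x := by exact_mod_cast (by omega : 0 < x)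
  have hpos : 0 < c * (x / Real.log x ^ 2) := by positivity
  have h5 : count2 h a a x ≤ count1 h a x := by
    unfold count2 count1
    apply card_le_card
    intro p hp
    rw [mem_filter] at hp ⊢
    obtain ⟨h4, n, h7, h8, h9, _⟩ := hp
    refine ⟨h4, ?_, ?_⟩
    · rw [← h7]; exact h8.1 0 (by omega)
    · rw [← h7]; exact h9
  have h6 : count1 h a x ≤ pairs h x := by
    unfold count1 pairs
    apply card_le_card
    intro p hp
    rw [mem_filter] at hp ⊢
    exact ⟨hp.1, hp.2.1⟩
  have h7 : (0 : ℝ) < count1 h a x := by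
    have : (count2 h a a x : ℝ) ≤ count1 h a x := by exact_mod_cast h5
    linarith
  refine ⟨h1.trans h3', by exact_mod_cast h7, ?_⟩
  unfold delta
  rw [le_div_iff₀ h7]
  have h8 : (count1 h a x : ℝ) ≤ pairs h x := by exact_mod_cast h6
  have h9 := mul_le_mul_of_nonneg_left h8 hc.le
  linarith

end Pool.Agent.Results.MP_74f661_nt.EqualClassStrings
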