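import Pool.Agent.Run7.h414.PM.Pert
import Pool.Agent.Run7.h414.PM.Ratio

set_option autoImplicit false

/-!
# Residues modulo 4 of consecutive twin pairs: random models of the primes, and randomly perturbed primes

The pairs `(n, n + 2)` with both members in a random set `A` of integers are ordered by their first members. We show that for
almost every such set the residues modulo 4 of consecutive pairs behave as the question predicts for twin primes, for
(1) every sequential random model of the primes with a growing sieve: multiples of a prime `q ≤ z n` are forbidden for `n`,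
and every other `n` is accepted with a conditional probability asymptotic to `∏_{q ≤ z n} (1 - 1/q)⁻¹ / log n`, the decisions
being allowed to depend on each other in an arbitrary way; and
(2) the perturbed primes: the integers `n` for which the true number `n + J_n w_n` is prime, where `w_n` is the product of
the primes up to `z n`, and the `J_n` are independent and uniformly distributed on `{0, …, Q n - 1}`, `Q n w_n` lying between
`n / (log n)^C` and `n`.
-/

namespace Pool.Agent.Results.MP_74f661_nt.ModelsAndPerturbedPrimes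

open Filter MeasureTheory ProbabilityTheory
open scoped Topology

/-- No prime `q ≤ z n` divides `n`. -/
def Sieved (z : ℕ → ℕ) (n : ℕ) : Prop := ∀ q : ℕ, q.Prime → q ≤ z n → ¬ q ∣ n

/-- `V x = ∏_{q ≤ x, q prime} (1 - 1/q)⁻¹`. -/
noncomputable def V (x : ℕ) : ℝ := ∏ q ∈ (Finset.Icc 1 x).filter Nat.Prime, (1 - (q : ℝ)⁻¹)⁻¹

/-- The first members of the pairs: the `n` with `n ∈ A` and `n + 2 ∈ A`, for the random set `A = {n | ω ∈ A n}`. -/
def Pairs {Ω : Type} (A : ℕ → Set Ω) (ω : Ω) : Set ℕ := {n | ω ∈ A n ∧ ω ∈ A (n + 2)}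

/-- `π₂(x; 4; a)` for the pairs whose first members form the set `T`: the `i` for which the first member of the `i`-th pair
(in increasing order) is at most `x` and congruent to `a`. -/
noncomputable def pi2 (T : Set ℕ) (x a : ℕ) : ℕ :=
  Set.ncard {i : ℕ | Nat.nth (· ∈ T) i ≤ x ∧ Nat.nth (· ∈ T) i % 4 = a}

/-- `π₂(x; 4; a | b)`: moreover the first member of the next pair is congruent to `b`. -/
noncomputable def pi2next (T : Set ℕ) (x a b : ℕ) : ℕ :=
  Set.ncard {i : ℕ | Nat.nth (· ∈ T) i ≤ x ∧ Nat.nth (· ∈ T) i % 4 = a ∧ Nat.nth (· ∈ T) (i + 1) % 4 = b}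

/-- The answer predicted by the question, and more: there are infinitely many pairs; `δ₂(x; 4; a | b)` tends to `1/2` for all
`a`, `b` in `{1, 3}`; and every pattern of residues in `{1, 3}` of `k + 1` consecutive pairs has the frequency
`(1/2)^(k + 1)`, for every `k`. -/
def Law (T : Set ℕ) : Prop :=
  T.Infinite ∧
  (∀ a b : ℕ, (a = 1 ∨ a = 3) → (b = 1 ∨ b = 3) →
    Tendsto (fun x : ℕ => (pi2next T x a b : ℝ) / pi2 T x a) atTop (𝓝 (1 / 2))) ∧
  ∀ (k : ℕ) (a : ℕ → ℕ), (∀ j ≤ k, a j = 1 ∨ a j = 3) →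
    Tendsto (fun M : ℕ => (Set.ncard {i : ℕ | i < M ∧ ∀ j ≤ k, Nat.nth (· ∈ T) (i + j) % 4 = a j} : ℝ) / M) atTop
      (𝓝 ((1 / 2) ^ (k + 1)))

/-- A sequential random model of the primes with the sieve `z`: the event `A n` (that `n` belongs to the random set) is
decided at time `n`; it is empty if some prime `q ≤ z n` divides `n`; and almost surely the conditional probability of
`A (n + 1)` given the information up to time `n` is asymptotic to `V (z (n + 1)) / log n` along the `n` for which `n + 1` has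
no prime factor `q ≤ z (n + 1)`. -/
structure Model {Ω : Type} [m0 : MeasurableSpace Ω] (μ : Measure Ω) (ℱ : Filtration ℕ m0) (z : ℕ → ℕ) (A : ℕ → Set Ω) : Prop where
  adapted : ∀ n, MeasurableSet[ℱ n] (A n)
  sieved : ∀ n, ¬ Sieved z n → A n = ∅
  density : ∀ᵐ ω ∂μ, Tendsto
    (fun n : ℕ => (μ[(A (n + 1)).indicator (fun _ => (1 : ℝ)) | ℱ n]) ω * Real.log n / V (z (n + 1)))
    (atTop ⊓ 𝓟 {n : ℕ | Sieved z (n + 1)}) (𝓝 1)

/-- The random variables `J n` are independent, and `J n` is uniformly distributed on `{0, …, Q n - 1}`. -/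
structure IndependentUniform {Ω : Type} [MeasurableSpace Ω] (μ : Measure Ω) (Q : ℕ → ℕ) (J : ℕ → Ω → ℕ) : Prop where
  measurable : ∀ n, Measurable (J n)
  independent : iIndepFun J μ
  uniform : ∀ n, 0 < Q n ∧ ∀ j < Q n, μ.real {ω | J n ω = j} = 1 / Q n

/-- The perturbed primes: `n` belongs to the set if `n + J_n w_n` is a prime larger than `z n`, where `w_n` is the product of
the primes up to `z n`. -/
def Perturbed {Ω : Type} (z : ℕ → ℕ) (J : ℕ → Ω → ℕ) (n : ℕ) : Set Ω :=
  {ω | (n + J n ω * primorial (z n)).Prime ∧ z n < n + J n ω * primorial (z n)}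

/-- Almost surely the question has the predicted answer, with all patterns equally likely, for the pairs `(n, n + 2)` (1) in
every sequential random model of the primes with a nondecreasing sieve `3 ≤ z n ≤ log log n`, and (2) in the perturbed
primes, for such `z` and for shifts whose lengths `Q n w_n` lie between `n / (log n)^C` and `n`. -/
theorem result (z : ℕ → ℕ) (hmono : Monotone z) (h3 : ∀ n, 3 ≤ z n)
    (hz : ∀ᶠ n : ℕ in atTop, (z n : ℝ) ≤ Real.log (Real.log n)) :
    (∀ (Ω : Type) (m0 : MeasurableSpace Ω) (μ : Measure Ω) (_ : IsProbabilityMeasure μ) (ℱ : Filtration ℕ m0)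
      (A : ℕ → Set Ω), Model μ ℱ z A → ∀ᵐ ω ∂μ, Law (Pairs A ω)) ∧
    (∀ (C : ℕ) (Q : ℕ → ℕ),
      (∀ᶠ n : ℕ in atTop, (n : ℝ) / Real.log n ^ C ≤ Q n * primorial (z n) ∧ Q n * primorial (z n) ≤ n) →
      ∀ (Ω : Type) (_ : MeasurableSpace Ω) (μ : Measure Ω) (_ : IsProbabilityMeasure μ) (J : ℕ → Ω → ℕ),
        IndependentUniform μ Q J → ∀ᵐ ω ∂μ, Law (Pairs (Perturbed z J) ω)) := by
  have key : ∀ (Ω : Type) (m0 : MeasurableSpace Ω) (μ : Measure Ω) (_ : IsProbabilityMeasure μ) (ℱ : Filtration ℕ m0)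
      (A : ℕ → Set Ω), Model μ ℱ z A → ∀ᵐ ω ∂μ, Law (Pairs A ω) := by
    intro Ω m0 μ hμ ℱ A hA
    have h := Pool.Agent.Run7.h414.PM.model (μ := μ) (ℱ := ℱ) (A := A) z hmono h3 hz hA.adapted hA.sieved hA.density
    filter_upwards [h] with ω hω
    obtain ⟨h1, h2⟩ := hω
    refine ⟨h1, fun a b ha hb => Pool.Agent.Run7.h414.PM.ratios _ h1 h2 a b ha hb, fun k a ha => ?_⟩
    refine (h2 k a ha).congr fun M => ?_
    classical
    have e : {i : ℕ | i < M ∧ ∀ j ≤ k, Nat.nth (· ∈ Pairs A ω) (i + j) % 4 = a j} = ↑((Finset.range M).filter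
        (fun i => ∀ j ≤ k, Nat.nth (· ∈ Pool.Agent.Run7.h414.PM.TT A ω) (i + j) % 4 = a j)) := by
      ext i
      simp only [Finset.coe_filter, Finset.mem_range, Set.mem_ofPred_eq]
      rfl
    rw [e, Set.ncard_coe_finset]
  refine ⟨key, ?_⟩
  intro C Q hQ Ω m0 μ hμ J hJ
  have hz' : ∀ᶠ n : ℕ in atTop, (z n : ℝ) ≤ (C + 1 : ℕ) * Real.log (Real.log n) := by
    filter_upwards [hz, Pool.Agent.Run7.h414.PM.logt.eventually_ge_atTop 1] with n h1 h2
    have h4 : 0 ≤ Real.log (Real.log n) := Real.log_nonneg h2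
    have h5 : (0 : ℝ) ≤ C := Nat.cast_nonneg C
    push_cast
    nlinarith
  have hQ' : ∀ᶠ n : ℕ in atTop, (n : ℝ) / Real.log n ^ (C + 1) ≤ Q n * primorial (z n) ∧ Q n * primorial (z n) ≤ n := by
    filter_upwards [hQ, Pool.Agent.Run7.h414.PM.logt.eventually_ge_atTop 1] with n h1 h2
    refine ⟨le_trans ?_ h1.1, h1.2⟩
    exact div_le_div_of_nonneg_left (Nat.cast_nonneg n) (pow_pos (by linarith) C) (pow_le_pow_right₀ h2 (Nat.le_succ C))
  obtain ⟨ℱ, g1, g2, g3⟩ := Pool.Agent.Run7.h414.PM.pert z Q (C + 1) hz' hQ' J ⟨hJ.measurable, hJ.independent, hJ.uniform⟩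
  exact key Ω m0 μ hμ ℱ (Perturbed z J) ⟨g1, g2, g3⟩

end Pool.Agent.Results.MP_74f661_nt.ModelsAndPerturbedPrimes
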