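import Pool.Agent.Run7.h560.AP.Forms2

set_option autoImplicit false

/-!
# All residue patterns modulo 4 for consecutive pairs of rough almost primes
-/

namespace Pool.Agent.Results.MP_74f661_nt.ResiduePatterns

open Finset
open Pool.Agent.Run7.h560.AP

/-- `q` and `q + 2` have no prime factor `≤ y`. -/
def RoughPair (y : ℝ) (q : ℕ) : Prop := ∀ p : ℕ, p.Prime → (p ∣ q ∨ p ∣ q + 2) → y < p

/-- the shifts of the pairs -/
def hs {l : ℕ} (P : ℕ) (τ : Fin l → ℕ) (j : Fin l) : ℕ := P * (j + 1) + 6 * τ j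

/-- a residue class in which all the members of the pairs are not divisible by `p` -/
lemma good {l : ℕ} (P : ℕ) (hP : ∀ p : ℕ, p.Prime → p ≤ 2 * l + 12 → p ∣ P) (τ : Fin l → ℕ) (hτ : ∀ j, τ j ≤ 1)
    (p : ℕ) (hp : p.Prime) : ∃ v : ℕ, ∀ j : Fin l, ¬ p ∣ v + hs P τ j ∧ ¬ p ∣ v + hs P τ j + 2 := by
  classical
  by_cases hpl : p ≤ 2 * l + 12
  · have hd := hP p hp hpl
    obtain ⟨v, hv⟩ : ∃ v : ℕ, ¬ p ∣ v ∧ ¬ p ∣ v + 2 ∧ ¬ p ∣ v + 6 ∧ ¬ p ∣ v + 8 := by
      have hp2 := hp.two_le
      by_cases h3 : p = 3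
      · exact ⟨2, by rw [h3]; norm_num, by rw [h3]; norm_num, by rw [h3]; norm_num, by rw [h3]; norm_num⟩
      · by_cases h7 : p = 7
        · exact ⟨2, by rw [h7]; norm_num, by rw [h7]; norm_num, by rw [h7]; norm_num, by rw [h7]; norm_num⟩
        · refine ⟨1, fun h => ?_, fun h => ?_, fun h => ?_, fun h => ?_⟩
          · have := Nat.le_of_dvd (by omega) h
            omega
          · have h1 : p ∣ 3 := h
            exact h3 ((Nat.prime_dvd_prime_iff_eq hp Nat.prime_three).1 h1)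
          · have h1 : p ∣ 7 := h
            exact h7 ((Nat.prime_dvd_prime_iff_eq hp (by norm_num)).1 h1)
          · have h1 : p ∣ 3 ^ 2 := h
            exact h3 ((Nat.prime_dvd_prime_iff_eq hp Nat.prime_three).1 (hp.dvd_of_dvd_pow h1))
    refine ⟨v, fun j => ?_⟩
    have h1 : p ∣ P * (j + 1) := hd.mul_right _
    have h2 : τ j = 0 ∨ τ j = 1 := by
      have := hτ j
      omega
    unfold hs
    rcases h2 with h2 | h2
    · rw [h2, mul_zero, add_zero]
      constructor
      · intro h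
        exact hv.1 ((Nat.dvd_add_left h1).1 h)
      · intro h
        rw [show v + P * (j + 1) + 2 = (v + 2) + P * (j + 1) by ring] at h
        exact hv.2.1 ((Nat.dvd_add_left h1).1 h)
    · rw [h2, mul_one]
      constructor
      · intro h
        rw [show v + (P * (j + 1) + 6) = (v + 6) + P * (j + 1) by ring] at h
        exact hv.2.2.1 ((Nat.dvd_add_left h1).1 h)
      · intro h
        rw [show v + (P * (j + 1) + 6) + 2 = (v + 8) + P * (j + 1) by ring] at h
        exact hv.2.2.2 ((Nat.dvd_add_left h1).1 h)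
  · push Not at hpl
    by_contra hcon
    push Not at hcon
    have hbad : ∀ v : ℕ, ∃ x : Fin l × Fin 2, p ∣ v + hs P τ x.1 + 2 * x.2 := by
      intro v
      obtain ⟨j, hj⟩ := hcon v
      by_cases h : p ∣ v + hs P τ j
      · exact ⟨(j, 0), by simpa using h⟩
      · exact ⟨(j, 1), by simpa using hj h⟩
    choose g hg using hbad
    have hcard : (range p).card ≤ (univ : Finset (Fin l × Fin 2)).card := by
      apply card_le_card_of_injOn g (fun _ _ => mem_coe.2 (mem_univ _))
      intro v hv w hw hvw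
      rw [mem_coe, mem_range] at hv hw
      have h1 := hg v
      have h2 := hg w
      rw [← hvw] at h2
      have h3 : v ≡ w [MOD p] := by
        have h4 : v + (hs P τ (g v).1 + 2 * (g v).2) ≡ w + (hs P τ (g v).1 + 2 * (g v).2) [MOD p] := by
          rw [← add_assoc, ← add_assoc]
          exact ((Nat.modEq_zero_iff_dvd).2 h1).trans ((Nat.modEq_zero_iff_dvd).2 h2).symm
        exact Nat.ModEq.add_right_cancel' _ h4
      unfold Nat.ModEq at h3
      rwa [Nat.mod_eq_of_lt hv, Nat.mod_eq_of_lt hw] at h3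
    rw [card_range, card_univ, Fintype.card_prod, Fintype.card_fin, Fintype.card_fin] at hcard
    omega

/-- the choice of the progression -/
lemma choice (b : ℕ) (hb : 2 ≤ b) (l P H : ℕ) (hP : ∀ p : ℕ, p.Prime → p ≤ 2 * l + 12 → p ∣ P) (hP4 : 4 ∣ P) (hP1 : 24 ≤ P)
    (τ : Fin l → ℕ) (hτ : ∀ j, τ j ≤ 1) (hH : ∀ j, hs P τ j + 2 ≤ H) :
    ∃ M a : ℕ, 1 ≤ M ∧ 4 ∣ M ∧ a % 4 = 1 ∧
      (∀ j : Fin l, Nat.Coprime (a + hs P τ j) (M * b) ∧ Nat.Coprime (a + hs P τ j + 2) (M * b)) ∧
      (∀ t : ℕ, t ≤ H → (∀ j, t ≠ hs P τ j) → ∃ p : ℕ, p.Prime ∧ p ∣ M ∧ (p ∣ a + t ∨ p ∣ a + t + 2)) := by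
  classical
  obtain ⟨Z, hZ⟩ : ∃ Z, Z = H + b + 8 := ⟨_, rfl⟩
  obtain ⟨pt, hpt⟩ : ∃ pt : ℕ → ℕ, pt = fun t => Nat.nth Nat.Prime (Z + t) := ⟨_, rfl⟩
  have hmono := Nat.nth_strictMono Nat.infinite_setOfPred_prime
  have hptp : ∀ t, (pt t).Prime := fun t => by rw [hpt]; exact Nat.prime_nth_prime _
  have hptZ : ∀ t, Z ≤ pt t := fun t => by
    rw [hpt]
    have h1 : Z + t ≤ Nat.nth Nat.Prime (Z + t) := hmono.le_apply
    simp only
    omega
  have hptinj : ∀ s t, pt s = pt t → s = t := by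
    intro s t h
    rw [hpt] at h
    have := hmono.injective h
    omega
  -- the member which is not in the system
  obtain ⟨ut, hut⟩ : ∃ ut : ℕ → ℕ, ut = fun t => if (∃ j : Fin l, t = hs P τ j + 2) then t + 2 else t := ⟨_, rfl⟩
  have hspace : ∀ i j : Fin l, hs P τ i ≠ hs P τ j + 4 := by
    intro i j h
    unfold hs at h
    have h1 := hτ i
    have h2 := hτ j
    rcases Nat.lt_trichotomy (i : ℕ) j with h3 | h3 | h3
    · have : P * ((i : ℕ) + 1 + 1) ≤ P * ((j : ℕ) + 1) := Nat.mul_le_mul_left _ (by omega)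
      rw [mul_add P ((i : ℕ) + 1) 1, mul_one] at this
      omega
    · rw [h3] at h
      have : (6 * τ i) = 6 * τ j + 4 := by omega
      omega
    · have : P * ((j : ℕ) + 1 + 1) ≤ P * ((i : ℕ) + 1) := Nat.mul_le_mul_left _ (by omega)
      rw [mul_add P ((j : ℕ) + 1) 1, mul_one] at this
      omega
  have hut1 : ∀ t, (ut t = t ∨ ut t = t + 2) := by
    intro t
    rw [hut]
    simp only
    split_ifs
    · right; rfl
    · left; rfl
  have hut2 : ∀ t, (∀ j, t ≠ hs P τ j) → ∀ j : Fin l, ut t ≠ hs P τ j ∧ ut t ≠ hs P τ j + 2 := by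
    intro t ht j
    rw [hut]
    simp only
    split_ifs with h
    · obtain ⟨i, hi⟩ := h
      constructor
      · intro h1
        apply hspace j i
        omega
      · intro h1
        apply ht j
        omega
    · push Not at h
      exact ⟨ht j, h j⟩
  obtain ⟨M', hM'⟩ : ∃ M', M' = ∏ t ∈ range (H + 1), pt t := ⟨_, rfl⟩
  have hM'0 : 0 < M' := by rw [hM']; exact prod_pos fun t _ => (hptp t).pos
  have hpM' : ∀ p : ℕ, p.Prime → p ∣ M' → ∃ t ≤ H, p = pt t := by
    intro p hp h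
    rw [hM', hp.prime.dvd_finsetProd_iff] at h
    obtain ⟨t, ht, h1⟩ := h
    rw [mem_range] at ht
    exact ⟨t, by omega, (Nat.prime_dvd_prime_iff_eq hp (hptp t)).1 h1⟩
  have hodd : ∀ t, ¬ pt t ∣ 4 := by
    intro t h
    have := Nat.le_of_dvd (by norm_num) h
    have := hptZ t
    omega
  obtain ⟨a', ha'⟩ := crt_primes (M' * b) (fun p a' => (∀ t ≤ H, (∀ j, t ≠ hs P τ j) → p = pt t → p ∣ 4 * a' + 1 + ut t) ∧
    ∀ j : Fin l, ¬ p ∣ 4 * a' + 1 + hs P τ j ∧ ¬ p ∣ 4 * a' + 1 + hs P τ j + 2) (by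
      intro p n m hnm ⟨h1, h2⟩
      have h3 : ∀ s : ℕ, p ∣ 4 * n + 1 + s ↔ p ∣ 4 * m + 1 + s := by
        intro s
        rw [← Nat.modEq_zero_iff_dvd, ← Nat.modEq_zero_iff_dvd]
        have h4 : 4 * n + 1 + s ≡ 4 * m + 1 + s [MOD p] :=
          Nat.ModEq.add_right _ (Nat.ModEq.add_right _ (Nat.ModEq.mul_left _ hnm))
        exact ⟨fun h => h4.symm.trans h, fun h => h4.trans h⟩
      refine ⟨fun t ht hj hpt' => (h3 _).1 (h1 t ht hj hpt'), fun j => ⟨fun h => (h2 j).1 ((h3 _).2 h), fun h => ?_⟩⟩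
      apply (h2 j).2
      rw [add_assoc] at h ⊢
      exact (h3 _).2 h) (by positivity) (by
      intro p hp hpq
      by_cases hex : ∃ t ≤ H, (∀ j, t ≠ hs P τ j) ∧ p = pt t
      · obtain ⟨t, ht, hj, hpt'⟩ := hex
        obtain ⟨n, _, hn⟩ := exists_root p hp 4 (1 + ut t) (by
          intro h
          apply hodd t
          rw [← hpt']
          exact_mod_cast h)
        have hn' : p ∣ 4 * n + 1 + ut t := by
          have : (p : ℤ) ∣ ((4 * n + 1 + ut t : ℕ) : ℤ) := by
            push_cast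
            have e : (4 : ℤ) * n + 1 + ut t = 4 * n + (1 + ut t) := by ring
            rw [e]
            exact hn
          exact Int.natCast_dvd_natCast.1 this
        refine ⟨n, fun s hs' _ hps => ?_, fun j => ?_⟩
        · have : s = t := hptinj s t (hps.symm.trans hpt')
          rw [this]
          exact hn'
        · have hpZ : Z ≤ p := by rw [hpt']; exact hptZ t
          have hutH : ut t ≤ H + 2 := by
            rcases hut1 t with h | h <;> omega
          have hjH := hH j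
          have key : ∀ s : ℕ, s ≤ H → p ∣ 4 * n + 1 + s → s = ut t := by
            intro s hs1 hs2
            rcases Nat.lt_trichotomy s (ut t) with h | h | h
            · have h1 := (Nat.dvd_sub hn' hs2)
              have h2 : 4 * n + 1 + ut t - (4 * n + 1 + s) = ut t - s := by omega
              rw [h2] at h1
              have := Nat.le_of_dvd (by omega) h1
              omega
            · exact h
            · have h1 := (Nat.dvd_sub hs2 hn')
              have h2 : 4 * n + 1 + s - (4 * n + 1 + ut t) = s - ut t := by omega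
              rw [h2] at h1
              have := Nat.le_of_dvd (by omega) h1
              omega
          obtain ⟨u1, u2⟩ := hut2 t hj j
          constructor
          · intro h
            exact u1 (key _ (by omega) h).symm
          · intro h
            rw [add_assoc] at h
            exact u2 (key _ (by omega) h).symm
      · obtain ⟨v, hv⟩ := good P hP τ hτ p hp
        by_cases h2 : p = 2
        · refine ⟨0, fun t ht hj hpt' => (hex ⟨t, ht, hj, hpt'⟩).elim, fun j => ?_⟩
          have h3 : 4 ∣ P * (j + 1) := hP4.mul_right _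
          rw [h2]
          unfold hs
          obtain ⟨w, hw⟩ := h3
          rw [hw]
          constructor
          · intro h; omega
          · intro h; omega
        · obtain ⟨n, _, hn⟩ := exists_root p hp 4 (1 - v) (by
            intro h
            have h4 : p ∣ 4 := by exact_mod_cast h
            have h5 : p ∣ 2 ^ 2 := h4
            exact h2 ((Nat.prime_dvd_prime_iff_eq hp Nat.prime_two).1 (hp.dvd_of_dvd_pow h5)))
          have hn' : 4 * n + 1 ≡ v [MOD p] := by
            have h6 : (p : ℤ) ∣ ((4 * n + 1 : ℕ) : ℤ) - (v : ℕ) := by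
              push_cast
              have e : (4 : ℤ) * n + 1 - v = 4 * n + (1 - v) := by ring
              rw [e]
              exact hn
            exact ((Nat.modEq_iff_dvd).2 h6).symm
          refine ⟨n, fun t ht hj hpt' => (hex ⟨t, ht, hj, hpt'⟩).elim, fun j => ?_⟩
          have h7 : ∀ s : ℕ, p ∣ 4 * n + 1 + s → p ∣ v + s := by
            intro s hs'
            rw [← Nat.modEq_zero_iff_dvd] at hs' ⊢
            exact (Nat.ModEq.add_right s hn').symm.trans hs'
          refine ⟨fun h => (hv j).1 (h7 _ h), fun h => ?_⟩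
          apply (hv j).2
          rw [add_assoc] at h ⊢
          exact h7 _ h)
  have h4h : ∀ j : Fin l, 2 ∣ hs P τ j := by
    intro j
    obtain ⟨w, hw⟩ := hP4
    unfold hs
    rw [hw]
    exact ⟨2 * w * (j + 1) + 3 * τ j, by ring⟩
  refine ⟨4 * M', 4 * a' + 1, by omega, ⟨M', rfl⟩, by omega, fun j => ?_, fun t ht hj => ?_⟩
  · have key : ∀ s : ℕ, s = hs P τ j ∨ s = hs P τ j + 2 → Nat.Coprime (4 * a' + 1 + s) (4 * M' * b) := by
      intro s hs'
      have h2s : 2 ∣ s := by
        have := h4h j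
        rcases hs' with h | h <;> omega
      apply Nat.coprime_of_dvd
      intro p hp hp1 hp2
      by_cases h2 : p = 2
      · rw [h2] at hp1
        omega
      · have hp3 : p ∣ M' * b := by
          rw [mul_assoc] at hp2
          rcases hp.dvd_mul.1 hp2 with h | h
          · have h5 : p ∣ 2 ^ 2 := h
            exact (h2 ((Nat.prime_dvd_prime_iff_eq hp Nat.prime_two).1 (hp.dvd_of_dvd_pow h5))).elim
          · exact h
        have := (ha' p hp hp3).2 j
        rcases hs' with h | h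
        · rw [h] at hp1
          exact this.1 hp1
        · rw [h, ← add_assoc] at hp1
          exact this.2 hp1
    refine ⟨key _ (Or.inl rfl), ?_⟩
    rw [add_assoc]
    exact key _ (Or.inr rfl)
  · have hd : pt t ∣ M' := by rw [hM']; exact dvd_prod_of_mem _ (mem_range.2 (by omega))
    refine ⟨pt t, hptp t, hd.mul_left 4, ?_⟩
    have h1 := (ha' (pt t) (hptp t) (hd.mul_right b)).1 t ht hj rfl
    rcases hut1 t with h | h
    · left
      rwa [h] at h1
    · right
      rw [h, ← add_assoc] at h1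
      exact h1

lemma div_pair {l : ℕ} (j : Fin l) (i : Fin 2) : (finProdFinEquiv (j, i)).divNat = j :=
  congrArg Prod.fst (finProdFinEquiv.symm_apply_apply (j, i))

lemma mod_pair {l : ℕ} (j : Fin l) (i : Fin 2) : (finProdFinEquiv (j, i)).modNat = i :=
  congrArg Prod.snd (finProdFinEquiv.symm_apply_apply (j, i))

/-- **Main theorem.** -/
theorem result (b : ℕ) (hb : 2 ≤ b) (S : Finset ℕ) (h0 : 0 ∈ S) (h1 : 1 ∈ S) (l : ℕ) (ε : Fin l → ℕ)
    (hε : ∀ j, ε j = 1 ∨ ε j = 3) :
    ∃ (M a H : ℕ) (h : Fin l → ℕ) (R : ℕ) (η c : ℝ) (x₀ : ℕ), 1 ≤ M ∧ StrictMono h ∧ (∀ j, h j ≤ H) ∧ 0 < η ∧ 0 < c ∧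
      ∀ x : ℕ, x₀ ≤ x → c * below (digitSet b S) x / Real.log x ^ (2 * l) ≤
        (Set.ncard {n : ℕ | n ∈ digitSet b S ∧ n < x ∧
          (∀ t : ℕ, t ≤ H → (RoughPair ((x : ℝ) ^ η) (M * n + a + t) ↔ ∃ j, t = h j)) ∧
          ∀ j, (M * n + a + h j) % 4 = ε j ∧ Almost R ((x : ℝ) ^ η) (M * n + a + h j) ∧
            Almost R ((x : ℝ) ^ η) (M * n + a + h j + 2)} : ℝ) := by
  classical
  obtain ⟨τ, hτd⟩ : ∃ τ : Fin l → ℕ, τ = fun j => if ε j = 1 then 0 else 1 := ⟨_, rfl⟩
  have hτ : ∀ j, τ j ≤ 1 := by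
    intro j
    rw [hτd]
    simp only
    split_ifs <;> omega
  obtain ⟨P, hPd⟩ : ∃ P : ℕ, P = 24 * (2 * l + 12).factorial := ⟨_, rfl⟩
  have hP : ∀ p : ℕ, p.Prime → p ≤ 2 * l + 12 → p ∣ P := by
    intro p hp hpl
    rw [hPd]
    exact ((hp.dvd_factorial).2 hpl).mul_left _
  have hP4 : 4 ∣ P := by rw [hPd]; exact Dvd.dvd.mul_right (by norm_num) _
  have hP1 : 24 ≤ P := by
    rw [hPd]
    have := (2 * l + 12).factorial_pos
    omega
  obtain ⟨H, hHd⟩ : ∃ H : ℕ, H = P * (l + 1) + 8 := ⟨_, rfl⟩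
  have hH : ∀ j, hs P τ j + 2 ≤ H := by
    intro j
    have h2 := hτ j
    have h3 : P * ((j : ℕ) + 1) ≤ P * (l + 1) := Nat.mul_le_mul_left _ (by omega)
    unfold hs
    omega
  obtain ⟨M, a, hM1, hM4, ha4, hcop, hkill⟩ := choice b hb l P H hP hP4 hP1 τ hτ hH
  have hmono : StrictMono (hs P τ) := by
    intro i j hij
    have h2 := hτ i
    have h3 : P * ((i : ℕ) + 1 + 1) ≤ P * ((j : ℕ) + 1) := Nat.mul_le_mul_left _ (by
      have : (i : ℕ) < j := hij
      omega)
    rw [mul_add P ((i : ℕ) + 1) 1, mul_one] at h3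
    unfold hs
    omega
  -- the forms
  obtain ⟨fa, hfa⟩ : ∃ fa : Fin (l * 2) → ℤ, fa = fun _ => (M : ℤ) := ⟨_, rfl⟩
  obtain ⟨fc, hfc⟩ : ∃ fc : Fin (l * 2) → ℤ, fc = fun m => ((a + hs P τ m.divNat + 2 * (m.modNat : ℕ) : ℕ) : ℤ) := ⟨_, rfl⟩
  have hval : ∀ (n : ℕ) (m : Fin (l * 2)), fa m * (n : ℤ) + fc m = ((M * n + a + hs P τ m.divNat + 2 * (m.modNat : ℕ) : ℕ) : ℤ) := by
    intro n m
    rw [hfa, hfc]
    push_cast
    ring
  have hcopm : ∀ m : Fin (l * 2), Nat.Coprime (a + hs P τ m.divNat + 2 * (m.modNat : ℕ)) (M * b) := by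
    intro m
    have h3 : (m.modNat : ℕ) = 0 ∨ (m.modNat : ℕ) = 1 := by
      have := m.modNat.isLt
      omega
    rcases h3 with h3 | h3
    · rw [h3, mul_zero, add_zero]
      exact (hcop _).1
    · rw [h3, mul_one]
      exact (hcop _).2
  have hfcop : ∀ m, IsCoprime (fa m) (fc m) := by
    intro m
    rw [hfa, hfc]
    simp only
    rw [Nat.isCoprime_iff_coprime]
    exact (Nat.Coprime.coprime_mul_right_right (hcopm m)).symm
  have hadm : ∀ p : ℕ, p.Prime → rho fa fc p < p := by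
    intro p hp
    apply rho_lt _ _ p hp
    by_cases hpM : p ∣ M
    · refine ⟨0, fun m hd => ?_⟩
      rw [hval, mul_zero, zero_add, Int.natCast_dvd_natCast] at hd
      have h4 := Nat.Coprime.coprime_mul_right_right (hcopm m)
      exact Nat.not_coprime_of_dvd_of_dvd hp.one_lt hd hpM h4
    · obtain ⟨v, hv⟩ := good P hP τ hτ p hp
      obtain ⟨n, _, hn⟩ := exists_root p hp M (a - v) (by exact_mod_cast hpM)
      refine ⟨n, fun m hd => ?_⟩
      rw [hval, Int.natCast_dvd_natCast] at hd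
      have hn' : M * n + a ≡ v [MOD p] := by
        have h6 : (p : ℤ) ∣ ((M * n + a : ℕ) : ℤ) - (v : ℕ) := by
          push_cast
          have e : (M : ℤ) * n + a - v = M * n + (a - v) := by ring
          rw [e]
          exact hn
        exact ((Nat.modEq_iff_dvd).2 h6).symm
      have h7 : p ∣ v + hs P τ m.divNat + 2 * (m.modNat : ℕ) := by
        rw [← Nat.modEq_zero_iff_dvd] at hd ⊢
        exact (Nat.ModEq.add_right _ (Nat.ModEq.add_right _ hn')).symm.trans hd
      have h3 : (m.modNat : ℕ) = 0 ∨ (m.modNat : ℕ) = 1 := by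
        have := m.modNat.isLt
        omega
      rcases h3 with h3 | h3
      · rw [h3, mul_zero, add_zero] at h7
        exact (hv _).1 h7
      · rw [h3, mul_one] at h7
        exact (hv _).2 h7
  obtain ⟨R, η, c₀, N₀, hη, hc₀, hlow⟩ := digits_lower b hb S h0 h1 (l * 2) 1
  obtain ⟨c₁, hc₁, hprod⟩ := prod_low (l * 2)
  have hlim := (tendsto_rpow_atTop hη).eventually (Filter.eventually_ge_atTop (M : ℝ))
  obtain ⟨X, hX⟩ := Filter.eventually_atTop.1 hlim
  obtain ⟨x₁, hx₁⟩ := exists_nat_ge X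
  refine ⟨M, a, H, hs P τ, R, η, c₀ * c₁, N₀ + x₁ + M + a + H + 2, hM1, hmono, fun j => (by have := hH j; omega), hη,
    mul_pos hc₀ hc₁, fun x hx => ?_⟩
  have hMx : (M : ℝ) ≤ (x : ℝ) ^ η := hX x (hx₁.trans (by exact_mod_cast (by omega : x₁ ≤ x)))
  have h2 := hlow x (by omega) fa fc hfcop (by
    intro m
    rw [pow_one, hfa, hfc]
    simp only
    rw [Int.natAbs_natCast, Int.natAbs_natCast]
    refine ⟨by omega, ?_⟩
    have h3 := hH m.divNat
    have h4 := m.modNat.isLt
    omega) (fun p hp _ => hadm p hp) ⟨0, h0, by omega, by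
      intro m
      rw [Nat.cast_zero, mul_zero, zero_add, hfc]
      simp only
      rw [Nat.isCoprime_iff_coprime]
      exact Nat.Coprime.coprime_mul_left_right (hcopm m)⟩
  have h3 := hprod (rho fa fc) x (by omega) (fun p hp => ⟨rho_le fa fc hfcop p hp, hadm p hp⟩)
  have h3' : c₁ / Real.log x ^ (l * 2) ≤ ∏ p ∈ (range (x + 1)).filter Nat.Prime, (1 - (rho fa fc p : ℝ) / p) := h3
  have h4 : c₀ * c₁ * below (digitSet b S) x / Real.log x ^ (2 * l) ≤
      c₀ * cnt b (dfa S) x (fun _ => True) * ∏ p ∈ (range (x + 1)).filter Nat.Prime, (1 - (rho fa fc p : ℝ) / p) := by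
    rw [digit_auto, below_cnt, mul_comm 2 l]
    calc c₀ * c₁ * (cnt b (dfa S) x (fun _ => True) : ℝ) / Real.log x ^ (l * 2) =
        c₀ * cnt b (dfa S) x (fun _ => True) * (c₁ / Real.log x ^ (l * 2)) := by ring
      _ ≤ _ := mul_le_mul_of_nonneg_left h3' (mul_nonneg hc₀.le (Nat.cast_nonneg _))
  refine h4.trans (h2.trans ?_)
  rw [Nat.cast_le, digit_auto]
  have h5 := cnt_le_ncard b (dfa S) x
    (fun n => ∀ i, fa i * n + fc i ≠ 0 ∧ (fa i * n + fc i).natAbs.primeFactorsList.length ≤ R ∧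
      ∀ p : ℕ, p.Prime → (p : ℤ) ∣ fa i * n + fc i → (x : ℝ) ^ η < p)
    {n : ℕ | n ∈ autoSet b (dfa S) ∧ n < x ∧
          (∀ t : ℕ, t ≤ H → (RoughPair ((x : ℝ) ^ η) (M * n + a + t) ↔ ∃ j, t = hs P τ j)) ∧
          ∀ j, (M * n + a + hs P τ j) % 4 = ε j ∧ Almost R ((x : ℝ) ^ η) (M * n + a + hs P τ j) ∧
            Almost R ((x : ℝ) ^ η) (M * n + a + hs P τ j + 2)}
    (fin_lt x _ (fun n hn => hn.2.1)) ∅ (by
    intro n a1 a2 a3
    left
    have hal : ∀ (j : Fin l) (i : Fin 2), Almost R ((x : ℝ) ^ η) (M * n + a + hs P τ j + 2 * (i : ℕ)) := by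
      intro j i
      obtain ⟨b1, b2, b3⟩ := a3 (finProdFinEquiv (j, i))
      rw [hval, div_pair, mod_pair] at b1 b2 b3
      rw [Int.natAbs_natCast] at b2
      exact ⟨by exact_mod_cast b1, b2, fun p hp hpd => b3 p hp (Int.natCast_dvd_natCast.2 hpd)⟩
    have hal0 : ∀ j : Fin l, Almost R ((x : ℝ) ^ η) (M * n + a + hs P τ j) := fun j => hal j 0
    have hal1 : ∀ j : Fin l, Almost R ((x : ℝ) ^ η) (M * n + a + hs P τ j + 2) := fun j => hal j 1
    refine ⟨a1, a2, fun t ht => ⟨fun hr => ?_, ?_⟩, fun j => ⟨?_, hal0 j, hal1 j⟩⟩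
    · by_contra hcon
      push Not at hcon
      obtain ⟨p, hp, hpM, hpd⟩ := hkill t ht hcon
      have h6 := hr p hp (by
        have h7 : p ∣ M * n := hpM.mul_right n
        rcases hpd with h | h
        · left
          rw [add_assoc]
          exact dvd_add h7 h
        · right
          rw [add_assoc, add_assoc, ← add_assoc a t 2]
          exact dvd_add h7 h)
      have h7 : (p : ℝ) ≤ M := by exact_mod_cast Nat.le_of_dvd hM1 hpM
      linarith
    · rintro ⟨j, rfl⟩ p hp hpd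
      rcases hpd with h | h
      · exact (hal0 j).2.2 p hp h
      · exact (hal1 j).2.2 p hp h
    · obtain ⟨w, hw⟩ := hM4
      obtain ⟨v, hv⟩ := hP4
      have e1 : τ j = if ε j = 1 then 0 else 1 := by rw [hτd]
      have e2 : M * n = 4 * (w * n) := by rw [hw]; ring
      have e3 : P * ((j : ℕ) + 1) = 4 * (v * ((j : ℕ) + 1)) := by rw [hv]; ring
      unfold hs
      rcases hε j with h | h
      · rw [if_pos h] at e1
        rw [h]
        omega
      · rw [if_neg (by omega)] at e1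
        rw [h]
        omega)
  rw [card_empty, add_zero] at h5
  exact h5

end Pool.Agent.Results.MP_74f661_nt.ResiduePatterns
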