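import Pool.Agent.Run7.h285.R.All

/-!
# All patterns of residues of consecutive simultaneous prime values, on average over the constant terms

The page asks for the patterns modulo `4` of consecutive twin prime pairs. Here the twin prime pairs are replaced by the `n` for which
`f₁(n) + a₁, …, f_k(n) + a_k` are all primes in absolute value, where `f₁, …, f_k` are fixed integer polynomials of degrees `d_l ≥ 2` with
positive leading coefficients (for instance `k = 2`), on average over the tuples `(a₁, …, a_k)`, `|a_l| ≤ X`, and over `n` in an arbitrary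
interval `(m₀, m₀ + M]` with `M^(d_l - 1) ≥ X^(1/3) (log X)^B` below `(X (log X)^C)^(1/d_l)`; call such `n` events. The mean distance of
consecutive events is `(log X)^k` in order of magnitude. For every modulus `q` and every pattern `(r₁, r₂)` of residues modulo `q` that is
possible modulo `2` there is `κ > 0` such that for every `λ ≤ 1` at least a proportion `κ λ` of all events `n` satisfy: `n ≡ r₁`, the NEXT
event `n'` satisfies `n' ≡ r₂` modulo `q`, and `n' - n ≤ λ (log X)^k`. (The order `λ` is the expected one.) In particular all patterns, also those with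
`r₁ ≠ r₂`, and small gaps occur with positive proportion.

Method. The wanted number is at least the number of the pairs of events `n ≡ r₁`, `n + i ≡ r₂`, `i ≤ H`, minus the number of the triples
of events `n, n + i, n + j`, `i < j ≤ H`, with `H = ⌊c λ (log X)^k⌋`. The constant terms are independent, so that these are sums over `n` and
`i` (`i, j`) of products over `l` of the numbers of the `c`, `|c| ≤ X`, for which `|f_l(n) + c|`, `|f_l(n + i) + c|` (and `|f_l(n + j) + c|`) are
primes. For the pairs the law of the project MK of helper794 (Vinogradov's method and the circle method over a thin family of shifts) gives the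
lower bound `X / (8 (log X)²)` for almost all `n` if the difference `f_l(n + i) - f_l(n)` is even. For the triples the upper bound sieve; the mean of the
singular series over `n` by the Chinese remainder theorem for the primes `p ≤ c log X`.
Team: helper285 (statements, counting, assembly), helper837 (pairs), helper920 (sieve for triples), helper992 (mean of the singular
series), helper88 (triples), helper958 (pairs in residue classes), helper376 (correlations, project VAR), helper794 and the team of the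
project MK.
-/

set_option autoImplicit false

namespace Pool.Agent.Results.MP_74f661_nt.ResiduePatternsAtPolynomials

open Finset Filter Topology Polynomial

/-- the box of the tuples `a` of constant terms: `|a l| ≤ X` for all `l` -/
noncomputable def Box (k X : ℕ) : Finset (Fin k → ℤ) := Fintype.piFinset (fun _ => Icc (-(X : ℤ)) X)

/-- `n` is an event: all the numbers `|f_l(n) + a l|` are primes -/
def Event {k : ℕ} (f : Fin k → ℤ[X]) (a : Fin k → ℤ) (n : ℕ) : Prop := ∀ l, ((f l).eval (n : ℤ) + a l).natAbs.Prime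

/-- `n` and `n'` are consecutive events -/
def Consecutive {k : ℕ} (f : Fin k → ℤ[X]) (a : Fin k → ℤ) (n n' : ℕ) : Prop :=
  Event f a n ∧ Event f a n' ∧ n < n' ∧ ∀ t : ℕ, n < t → t < n' → ¬ Event f a t

open Classical in
/-- the number of the pairs `(a, n)`, `a` in the box, `m₀ < n ≤ m₀ + M`, such that `n` is an event -/
noncomputable def events {k : ℕ} (f : Fin k → ℤ[X]) (X m₀ M : ℕ) : ℕ :=
  #((Box k X ×ˢ Ioc m₀ (m₀ + M)).filter fun w => Event f w.1 w.2)

open Classical in
/-- the number of the pairs `(a, n)`, `a` in the box, `m₀ < n ≤ m₀ + M`, such that `n` is an event congruent to `r₁` modulo `q` and the next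
event `n'` is congruent to `r₂` modulo `q` and at distance at most `G` -/
noncomputable def patterns {k : ℕ} (f : Fin k → ℤ[X]) (q r₁ r₂ X m₀ M : ℕ) (G : ℝ) : ℕ :=
  #((Box k X ×ˢ Ioc m₀ (m₀ + M)).filter fun w => ∃ n' : ℕ, Consecutive f w.1 w.2 n' ∧ w.2 % q = r₁ % q ∧ n' % q = r₂ % q ∧
    (n' : ℝ) - w.2 ≤ G)

/-- **All patterns of residues of consecutive simultaneous prime values.** Let `k ≥ 1`, `f_1, …, f_k` integer polynomials of degrees `d_l ≥ 2` with
positive leading coefficients, `q ≥ 1`, and `r₁`, `r₂` residues modulo `q`, such that, if `q` is even, `f_l(r₁) - f_l(r₂)` is even for all `l` (otherwise no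
`n ≡ r₁` and `n' ≡ r₂` can be events with odd primes). There is `κ > 0` such that for `0 < λ ≤ 1` and every `C` there are `B` and `X₀` with: for `X ≥ X₀`
and all `m₀`, `M` with `X^(1/3) (log X)^B ≤ M^(d_l - 1)` and `(m₀ + M)^(d_l) ≤ X (log X)^C` for all `l`, the number of the pairs `(a, n)` such that `n ≡ r₁` modulo
`q` is an event and the next event `n'` satisfies `n' ≡ r₂` modulo `q` and `n' - n ≤ λ (log X)^k` is at least `κ λ X^k M / (log X)^k`, and at least `κ λ`
times the number of all pairs `(a, n)` such that `n` is an event. -/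
theorem result : ∀ (k : ℕ) (f : Fin k → ℤ[X]), 1 ≤ k → (∀ l, 2 ≤ (f l).natDegree ∧ 0 < (f l).leadingCoeff) →
    ∀ q r₁ r₂ : ℕ, 1 ≤ q → (2 ∣ q → ∀ l, (2 : ℤ) ∣ (f l).eval (r₁ : ℤ) - (f l).eval (r₂ : ℤ)) →
    ∃ κ : ℝ, 0 < κ ∧ ∀ lam : ℝ, 0 < lam → lam ≤ 1 → ∀ C : ℕ, ∃ B X₀ : ℕ, ∀ X : ℕ, X₀ ≤ X → ∀ m₀ M : ℕ,
      (∀ l, (X : ℝ) ^ (1 / 3 : ℝ) * Real.log X ^ B ≤ (M : ℝ) ^ ((f l).natDegree - 1)) →
      (∀ l, ((m₀ : ℝ) + M) ^ (f l).natDegree ≤ X * Real.log X ^ C) →
      κ * lam * ((X : ℝ) ^ k * M / Real.log X ^ k) ≤ (patterns f q r₁ r₂ X m₀ M (lam * Real.log X ^ k) : ℝ) ∧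
      κ * lam * (events f X m₀ M : ℝ) ≤ (patterns f q r₁ r₂ X m₀ M (lam * Real.log X ^ k) : ℝ) := by
  classical
  intro k f hk hf q r₁ r₂ hq hpar
  obtain ⟨κ, hκ, h1⟩ := Run7.h285.R.rp_all f hk hf q r₁ r₂ hq hpar
  refine ⟨κ / 120 ^ k, by positivity, fun lam hl0 hl1 C => ?_⟩
  obtain ⟨B, X₀, h2⟩ := h1 lam hl0 hl1 C
  refine ⟨B, X₀ + 3, fun X hX m₀ M hM hW => ?_⟩
  have h3 := h2 X (by omega) m₀ M hM hW
  have hX3 : (3 : ℝ) ≤ X := by exact_mod_cast (show 3 ≤ X by omega)
  have hL : 0 < Real.log X := Real.log_pos (by linarith)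
  have h4 : (#((Run7.h285.S.Bx k X ×ˢ Ioc m₀ (m₀ + M)).filter fun w => Run7.h285.R.Ev f w.1 w.2 ∧ w.2 % q = r₁ % q ∧
      ∃ n' : ℕ, w.2 < n' ∧ (n' : ℝ) ≤ w.2 + lam * Real.log X ^ k ∧ Run7.h285.R.Ev f w.1 n' ∧ n' % q = r₂ % q ∧
        ∀ t : ℕ, w.2 < t → t < n' → ¬ Run7.h285.R.Ev f w.1 t) : ℝ) ≤
      (patterns f q r₁ r₂ X m₀ M (lam * Real.log X ^ k) : ℝ) := by
    unfold patterns
    refine Nat.cast_le.2 (card_le_card ?_)
    intro w hw
    rw [mem_filter] at hw ⊢
    obtain ⟨g1, g2, g3, n', g4, g5, g6, g7, g8⟩ := hw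
    exact ⟨g1, n', ⟨g2, g6, g4, g8⟩, g3, g7, by linarith⟩
  have h5 : (events f X m₀ M : ℝ) ≤ 120 ^ k * ((X : ℝ) ^ k * M / Real.log X ^ k) := Run7.h285.R.ev_up f X m₀ M (by omega)
  have h6 : 0 ≤ (X : ℝ) ^ k * M / Real.log X ^ k := by positivity
  have h7 : (1 : ℝ) ≤ 120 ^ k := one_le_pow₀ (by norm_num)
  constructor
  · refine le_trans ?_ (h3.trans h4)
    have : κ / 120 ^ k ≤ κ := div_le_self hκ.le h7
    have h8 : 0 ≤ lam * ((X : ℝ) ^ k * M / Real.log X ^ k) := by positivity
    calc κ / 120 ^ k * lam * ((X : ℝ) ^ k * M / Real.log X ^ k) = κ / 120 ^ k * (lam * ((X : ℝ) ^ k * M / Real.log X ^ k)) := by ring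
      _ ≤ κ * (lam * ((X : ℝ) ^ k * M / Real.log X ^ k)) := mul_le_mul_of_nonneg_right this h8
      _ = _ := by ring
  · refine le_trans ?_ (h3.trans h4)
    calc κ / 120 ^ k * lam * (events f X m₀ M : ℝ) ≤ κ / 120 ^ k * lam * (120 ^ k * ((X : ℝ) ^ k * M / Real.log X ^ k)) := by gcongr
      _ = κ * lam * ((X : ℝ) ^ k * M / Real.log X ^ k) := by field_simp

end Pool.Agent.Results.MP_74f661_nt.ResiduePatternsAtPolynomials
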